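import Pool.Agent.P.MP_74dd9d_nt.Mertens

/-! A lower bound sieve of Brun-Hooley type in arbitrary dimension. -/

namespace Pool.Agent.P.MP_6f5b02_nt

open Finset Pool.Agent.P.MP_74dd9d_nt

/-- Finite sums of bounded periodic functions whose periods only involve primes of `Q`,
with total mean `μ` and sum of periods at most `R`. -/
inductive Rep (Q : Finset ℕ) : (ℕ → ℝ) → ℝ → ℝ → Prop
  | base (m : ℕ) (f : ℕ → ℝ) (μ : ℝ) (h : PM m f μ) (hm : ∀ p, p.Prime → p ∣ m → p ∈ Q) :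
      Rep Q f μ m
  | zero : Rep Q (fun _ => 0) 0 0
  | add {f g : ℕ → ℝ} {μ ν R S : ℝ} : Rep Q f μ R → Rep Q g ν S →
      Rep Q (fun a => f a + g a) (μ + ν) (R + S)
  | mono {f : ℕ → ℝ} {μ R S : ℝ} : Rep Q f μ R → R ≤ S → Rep Q f μ S

lemma Rep.congr {Q : Finset ℕ} {f g : ℕ → ℝ} {μ ν R : ℝ} (h : Rep Q f μ R) (h1 : ∀ a, f a = g a)
    (h2 : μ = ν) : Rep Q g ν R := by
  obtain rfl : f = g := funext h1
  exact h2 ▸ h

lemma Rep.nonneg {Q : Finset ℕ} {f : ℕ → ℝ} {μ R : ℝ} (h : Rep Q f μ R) : 0 ≤ R := by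
  induction h with
  | base m f μ h hm => positivity
  | zero => exact le_rfl
  | add _ _ h1 h2 => positivity
  | mono _ h1 h2 => exact h2.trans h1

lemma Rep.neg {Q : Finset ℕ} {f : ℕ → ℝ} {μ R : ℝ} (h : Rep Q f μ R) :
    Rep Q (fun a => -f a) (-μ) R := by
  induction h with
  | base m f μ h hm =>
    refine .base m _ _ ⟨h.1, fun a => by simp only [h.2.1], fun a => by simpa using h.2.2.1 a, ?_⟩ hm
    rw [sum_neg_distrib, h.2.2.2]; ring
  | zero => exact Rep.zero.congr (by simp) (by simp)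
  | add _ _ h1 h2 => exact (h1.add h2).congr (fun a => by ring) (by ring)
  | mono _ h1 h2 => exact h2.mono h1

lemma Rep.sub {Q Q' : Finset ℕ} {f : ℕ → ℝ} {μ R : ℝ} (h : Rep Q f μ R) (hQ : Q ⊆ Q') :
    Rep Q' f μ R := by
  induction h with
  | base m f μ h hm => exact .base m _ _ h fun p hp hd => hQ (hm p hp hd)
  | zero => exact .zero
  | add _ _ h1 h2 => exact h1.add h2
  | mono _ h1 h2 => exact h2.mono h1

lemma Rep.mul {Q Q' : Finset ℕ} {f g : ℕ → ℝ} {μ ν R S : ℝ} (h : Rep Q f μ R) (h' : Rep Q' g ν S)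
    (hd : Disjoint Q Q') : Rep (Q ∪ Q') (fun a => f a * g a) (μ * ν) (R * S) := by
  induction h with
  | base m f μ h hm =>
    induction h' with
    | base n g ν h' hn =>
      have hc : Nat.Coprime m n := by
        refine Nat.coprime_of_dvd fun p hp h1 h2 => ?_
        exact disjoint_left.1 hd (hm p hp h1) (hn p hp h2)
      refine (Rep.base (m * n) _ _ (h.mul h' hc) fun p hp hq => ?_).mono (by push_cast; rfl)
      rcases (Nat.Prime.dvd_mul hp).1 hq with h1 | h1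
      · exact mem_union_left _ (hm p hp h1)
      · exact mem_union_right _ (hn p hp h1)
    | zero => exact (Rep.zero.congr (by simp) (by simp)).mono (by simp)
    | add _ _ h1 h2 => exact ((h1.add h2).congr (fun a => by ring) (by ring)).mono (by linarith)
    | mono _ h1 h2 => exact h2.mono (mul_le_mul_of_nonneg_left h1 (by positivity))
  | zero => exact (Rep.zero.congr (by simp) (by simp)).mono (by simp)
  | add _ _ h1 h2 => exact ((h1.add h2).congr (fun a => by ring) (by ring)).mono (by linarith)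
  | mono _ h1 h2 => exact h2.mono (mul_le_mul_of_nonneg_right h1 h'.nonneg)

lemma Rep.sum {ι : Type} {Q : Finset ℕ} (s : Finset ι) {f : ι → ℕ → ℝ} {μ R : ι → ℝ}
    (h : ∀ i ∈ s, Rep Q (f i) (μ i) (R i)) :
    Rep Q (fun a => ∑ i ∈ s, f i a) (∑ i ∈ s, μ i) (∑ i ∈ s, R i) := by
  classical
  induction s using Finset.induction_on with
  | empty => simpa using Rep.zero
  | insert i s hi ih =>
    simp only [sum_insert hi]
    exact (h i (mem_insert_self _ _)).add (ih fun j hj => h j (mem_insert_of_mem hj))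

lemma Rep.sign {Q : Finset ℕ} {f : ℕ → ℝ} {μ R : ℝ} (h : Rep Q f μ R) (m : ℕ) :
    Rep Q (fun a => (-1) ^ m * f a) ((-1) ^ m * μ) R := by
  rcases neg_one_pow_eq_or ℝ m with e | e <;> rw [e]
  · exact h.congr (by simp) (by simp)
  · exact h.neg.congr (by simp) (by simp)

lemma Rep.approx {Q : Finset ℕ} {f : ℕ → ℝ} {μ R : ℝ} (h : Rep Q f μ R) (x : ℕ) :
    ∑ a ∈ range x, f a ≤ x * μ + 2 * R := by
  induction h with
  | base m f μ h hm => simpa using h.approx 0 x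
  | zero => simp
  | add _ _ h1 h2 => rw [sum_add_distrib]; linarith
  | mono _ h1 h2 => linarith

lemma Rep.mean_nonneg {Q : Finset ℕ} {f : ℕ → ℝ} {μ R : ℝ} (h : Rep Q f μ R)
    (hf : ∀ a, 0 ≤ f a) : 0 ≤ μ := by
  by_contra hμ
  push Not at hμ
  obtain ⟨x, hx⟩ := exists_nat_gt (2 * R / (-μ))
  rw [div_lt_iff₀ (by linarith)] at hx
  have h1 := h.approx x
  have h2 : 0 ≤ ∑ a ∈ range x, f a := sum_nonneg fun a _ => hf a
  linarith

section block

variable (I : ℕ → ℕ → Prop) [∀ p t, Decidable (I p t)] (g : ℕ → ℝ)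

/-- Indicator of the sifting condition. -/
noncomputable def ind (p t : ℕ) : ℝ := if I p t then 1 else 0

/-- Elementary symmetric sums. -/
noncomputable def es (P : Finset ℕ) (m : ℕ) (w : ℕ → ℝ) : ℝ :=
  ∑ E ∈ powersetCard m P, ∏ p ∈ E, w p

lemma es_ind (P : Finset ℕ) (m t : ℕ) :
    es P m (fun p => ind I p t) = ((P.filter fun p => I p t).card.choose m : ℕ) := by
  unfold es
  have h1 : ∀ E ∈ powersetCard m P, ∏ p ∈ E, ind I p t =
      if E ⊆ P.filter (fun p => I p t) then 1 else 0 := by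
    intro E hE
    have hEP := (mem_powersetCard.1 hE).1
    split_ifs with h
    · exact prod_eq_one fun p hp => by simp [ind, (mem_filter.1 (h hp)).2]
    · obtain ⟨p, hp, hp'⟩ := not_subset.1 h
      refine prod_eq_zero hp ?_
      have : ¬ I p t := fun e => hp' (mem_filter.2 ⟨hEP hp, e⟩)
      simp [ind, this]
  rw [sum_congr rfl h1, sum_boole, ← card_powersetCard]
  congr 2
  ext E
  simp only [mem_filter, mem_powersetCard]
  exact ⟨fun h => ⟨h.2, h.1.2⟩, fun h => ⟨⟨h.1.trans (filter_subset _ _), h.2⟩, h.1⟩⟩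

variable {I g}

lemma rep_es {P : Finset ℕ} (hP : ∀ p ∈ P, p.Prime) (hPM : ∀ p ∈ P, PM p (ind I p) (g p))
    {z : ℕ} (hz : ∀ p ∈ P, p ≤ z) (hc : P.card ≤ z) (m : ℕ) :
    Rep P (fun t => es P m fun p => ind I p t) (es P m g) ((z : ℝ) ^ (2 * m)) := by
  have h1 : ∀ E ∈ powersetCard m P, Rep P (fun t => ∏ p ∈ E, ind I p t) (∏ p ∈ E, g p)
      ((z : ℝ) ^ m) := by
    intro E hE
    obtain ⟨hEP, hEc⟩ := mem_powersetCard.1 hE
    refine (Rep.base _ _ _ (PM.prod (fun q hq => hP q (hEP hq)) fun q hq => hPM q (hEP hq))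
      fun p hp hd => ?_).mono ?_
    · obtain ⟨q, hq, hpq⟩ := (Prime.dvd_finsetProd_iff hp.prime _).1 hd
      rw [(Nat.prime_dvd_prime_iff_eq hp (hP q (hEP hq))).1 hpq]
      exact hEP hq
    · have := prod_le_pow_card E (fun q => q) z fun q hq => hz q (hEP hq)
      rw [hEc] at this
      exact_mod_cast this
  refine (Rep.sum _ h1).mono ?_
  rw [sum_const, card_powersetCard, nsmul_eq_mul, two_mul, pow_add]
  refine mul_le_mul_of_nonneg_right ?_ (by positivity)
  exact_mod_cast (Nat.choose_le_pow _ _).trans (Nat.pow_le_pow_left hc m)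

lemma es_le {P : Finset ℕ} (hg : ∀ p ∈ P, 0 ≤ g p) (m : ℕ) :
    4 ^ m * es P m g ≤ Real.exp (4 * ∑ p ∈ P, g p) := by
  have h1 := Real.prod_one_add_le_exp_sum P (f := fun p => if p ∈ P then 4 * g p else 0)
    (fun p => by split_ifs with h; exacts [mul_nonneg (by norm_num) (hg p h), le_rfl])
  rw [sum_congr rfl (fun p hp => if_pos hp), prod_congr rfl (fun p hp => by rw [if_pos hp]),
    prod_one_add, ← mul_sum] at h1
  refine le_trans ?_ h1
  unfold es
  rw [mul_sum]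
  have h2 : ∀ E ∈ powersetCard m P, (4 : ℝ) ^ m * ∏ p ∈ E, g p = ∏ p ∈ E, 4 * g p := by
    intro E hE
    rw [prod_mul_distrib, prod_const, (mem_powersetCard.1 hE).2]
  rw [sum_congr rfl h2]
  refine sum_le_sum_of_subset_of_nonneg (fun E hE => mem_powerset.2 (mem_powersetCard.1 hE).1)
    fun E hE _ => prod_nonneg fun p hp => mul_nonneg (by norm_num) (hg p (mem_powerset.1 hE hp))

lemma exp_le_one_sub {u : ℝ} (h0 : 0 ≤ u) (h1 : u ≤ 1 / 2) : Real.exp (-(2 * u)) ≤ 1 - u := by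
  rw [Real.exp_neg, inv_le_comm₀ (Real.exp_pos _) (by linarith)]
  refine le_trans ?_ (Real.add_one_le_exp _)
  rw [inv_le_iff_one_le_mul₀ (by linarith)]
  nlinarith

/-- One block of the sieve. -/
lemma block {P : Finset ℕ} (hP : ∀ p ∈ P, p.Prime) (hPM : ∀ p ∈ P, PM p (ind I p) (g p))
    (hg : ∀ p ∈ P, 0 ≤ g p ∧ g p ≤ 1 / 2) {z : ℕ} (hz2 : 2 ≤ z) (hz : ∀ p ∈ P, p ≤ z)
    (hc : P.card ≤ z) {L : ℝ} (hL : ∑ p ∈ P, g p ≤ L) (k : ℕ) :
    ∃ (y e : ℕ → ℝ) (Y E Ry Re : ℝ), Rep P y Y Ry ∧ Rep P e E Re ∧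
      Ry + Re ≤ (z : ℝ) ^ (3 * (2 * k + 2)) ∧ Real.exp (-(2 * L)) ≤ Y ∧
      4 ^ (2 * k + 1) * E ≤ Real.exp (4 * L) ∧
      ∀ t, 0 ≤ e t ∧ y t - e t ≤ (∏ p ∈ P, (1 - ind I p t)) ∧ (∏ p ∈ P, (1 - ind I p t)) ≤ y t := by
  have hy := Rep.sum (range (2 * k + 1)) fun m _ => (rep_es hP hPM hz hc m).sign m
  have hpt : ∀ t, 0 ≤ es P (2 * k + 1) (fun p => ind I p t) ∧
      (∑ m ∈ range (2 * k + 1), (-1) ^ m * es P m fun p => ind I p t) -
        es P (2 * k + 1) (fun p => ind I p t) ≤ (∏ p ∈ P, (1 - ind I p t)) ∧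
      (∏ p ∈ P, (1 - ind I p t)) ≤
        ∑ m ∈ range (2 * k + 1), (-1) ^ m * es P m fun p => ind I p t := by
    intro t
    simp only [es_ind]
    refine ⟨by positivity, ?_⟩
    rcases hν : (P.filter fun p => I p t).card with _ | ν
    · have h1 : ∏ p ∈ P, (1 - ind I p t) = 1 := by
        refine prod_eq_one fun p hp => ?_
        have : ¬ I p t := filter_eq_empty_iff.1 (card_eq_zero.1 hν) hp
        simp [ind, this]
      rw [h1, sum_range_succ']
      simp
    · have h1 : ∏ p ∈ P, (1 - ind I p t) = 0 := by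
        obtain ⟨p, hp⟩ : (P.filter fun p => I p t).Nonempty := card_pos.1 (by omega)
        exact prod_eq_zero (mem_filter.1 hp).1 (by simp [ind, (mem_filter.1 hp).2])
      have h2 : (∑ m ∈ range (2 * k + 1), (-1 : ℝ) ^ m * ((ν + 1).choose m : ℕ)) =
          (ν.choose (2 * k) : ℕ) := by
        have := Int.alternating_sum_range_choose_eq_choose (n := ν) (m := 2 * k)
        rw [pow_mul, neg_one_sq, one_pow, one_mul] at this
        exact_mod_cast this
      rw [h1, h2, Nat.choose_succ_succ']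
      push_cast
      constructor
      · have : (0 : ℝ) ≤ (ν.choose (2 * k + 1) : ℕ) := by positivity
        linarith
      · positivity
  refine ⟨_, _, _, _, _, _, hy, rep_es hP hPM hz hc (2 * k + 1), ?_, ?_, ?_, hpt⟩
  · rw [← sum_range_succ (fun m => (z : ℝ) ^ (2 * m))]
    have hz1 : (1 : ℝ) ≤ z := by exact_mod_cast (by omega : 1 ≤ z)
    have h1 : ∑ m ∈ range (2 * k + 1 + 1), (z : ℝ) ^ (2 * m) ≤
        ∑ _m ∈ range (2 * k + 1 + 1), (z : ℝ) ^ (2 * (2 * k + 2)) :=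
      sum_le_sum fun m hm => pow_le_pow_right₀ hz1 (by have := mem_range.1 hm; omega)
    refine h1.trans ?_
    rw [sum_const, card_range, nsmul_eq_mul,
      show 3 * (2 * k + 2) = (2 * k + 1 + 1) + 2 * (2 * k + 2) by ring, pow_add]
    refine mul_le_mul_of_nonneg_right ?_ (by positivity)
    exact_mod_cast (Nat.lt_pow_self (by omega)).le
  · have hx : Rep P (fun t => ∏ p ∈ P, (1 - ind I p t)) (∏ p ∈ P, (1 - g p)) (∏ p ∈ P, p : ℕ) := by
      refine Rep.base _ _ _ (PM.prod (f := fun p t => 1 - ind I p t) hP fun q hq => ?_)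
        fun p hp hd => ?_
      · have h := hPM q hq
        refine ⟨h.1, fun a => by simp only [h.2.1], fun a => ?_, ?_⟩
        · simp only [ind]; split_ifs <;> simp
        · rw [sum_sub_distrib, h.2.2.2]; simp; ring
      · obtain ⟨q, hq, hpq⟩ := (Prime.dvd_finsetProd_iff hp.prime _).1 hd
        rw [(Nat.prime_dvd_prime_iff_eq hp (hP q hq)).1 hpq]
        exact hq
    have h1 := (hy.add hx.neg).mean_nonneg fun t => by have := (hpt t).2.2; linarith
    have h2 : Real.exp (-(2 * L)) ≤ ∏ p ∈ P, (1 - g p) := by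
      calc Real.exp (-(2 * L)) ≤ Real.exp (∑ p ∈ P, -(2 * g p)) := by
            rw [Real.exp_le_exp, sum_neg_distrib, ← mul_sum]; linarith
        _ = ∏ p ∈ P, Real.exp (-(2 * g p)) := Real.exp_sum _ _
        _ ≤ _ := prod_le_prod (fun p _ => (Real.exp_pos _).le) fun p hp =>
            exp_le_one_sub (hg p hp).1 (hg p hp).2
    linarith
  · exact (es_le (fun p hp => (hg p hp).1) _).trans (Real.exp_le_exp.2 (by linarith))

/-- Primes up to `2 ^ 2 ^ j`. -/
def PP (j : ℕ) : Finset ℕ := (range (2 ^ 2 ^ j + 1)).filter Nat.Prime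

lemma mem_PP {j p : ℕ} : p ∈ PP j ↔ p ≤ 2 ^ 2 ^ j ∧ p.Prime := by
  simp [PP]

lemma PP_sub (j : ℕ) : PP j ⊆ PP (j + 1) := fun p hp => mem_PP.2
  ⟨(mem_PP.1 hp).1.trans (Nat.pow_le_pow_right (by norm_num)
    (Nat.pow_le_pow_right (by norm_num) (Nat.le_succ j))), (mem_PP.1 hp).2⟩

lemma block_sum (j : ℕ) : ∑ p ∈ PP (j + 1) \ PP j, (1 : ℝ) / p ≤ 11 := by
  have hl := Real.log_two_gt_d9
  have h1 : (1 : ℝ) ≤ 2 ^ j := one_le_pow₀ (by norm_num)
  have hpos : (0 : ℝ) < 2 ^ j * Real.log 2 := by positivity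
  have h2 := mertens1 (t := 2 ^ (j + 1) * Real.log 2) (by positivity) (P := PP (j + 1) \ PP j)
    fun p hp => by
      have h := mem_PP.1 (mem_sdiff.1 hp).1
      refine mem_Pr.2 ⟨?_, h.2⟩
      have e : ((2 : ℝ) ^ (j + 1)) = ((2 ^ (j + 1) : ℕ) : ℝ) := by push_cast; rfl
      rw [e, Real.exp_nat_mul, Real.exp_log (by norm_num)]
      exact_mod_cast h.1
  have h3 : (2 ^ j * Real.log 2) * ∑ p ∈ PP (j + 1) \ PP j, (1 : ℝ) / p ≤
      ∑ p ∈ PP (j + 1) \ PP j, Real.log p / p := by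
    rw [mul_sum]
    refine sum_le_sum fun p hp => ?_
    have h := mem_PP.1 (mem_sdiff.1 hp).1
    have h' : 2 ^ 2 ^ j ≤ p := by
      by_contra hc
      exact (mem_sdiff.1 hp).2 (mem_PP.2 ⟨by omega, h.2⟩)
    rw [mul_one_div]
    refine div_le_div_of_nonneg_right ?_ (by positivity)
    have e : ((2 : ℝ) ^ j) = ((2 ^ j : ℕ) : ℝ) := by push_cast; rfl
    rw [e, ← Real.log_pow]
    exact Real.log_le_log (by positivity) (by exact_mod_cast h')
  rw [pow_succ] at h2
  by_contra hc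
  push Not at hc
  nlinarith

lemma main_ind {κ : ℕ} (hPM : ∀ p, p.Prime → PM p (ind I p) (g p))
    (hg : ∀ p, p.Prime → 0 ≤ g p ∧ g p ≤ 1 / 2 ∧ g p ≤ κ / p) (h2 : ∀ t, ¬ I 2 t) (j : ℕ) :
    ∀ d : ℕ, ∃ (φ ψ : ℕ → ℝ) (Φ Ψ R : ℝ), Rep (PP j) φ Φ R ∧ Rep (PP j) ψ Ψ R ∧
      R ≤ 2 ^ (2 ^ j * (396 * κ + 36 + 12 * d)) ∧ Real.exp (-(22 * κ * j)) ≤ Φ ∧
      (1 - (1 / 2) ^ (d + 1)) * Φ ≤ Ψ ∧
      ∀ t, ψ t ≤ (∏ p ∈ PP j, (1 - ind I p t)) ∧ (∏ p ∈ PP j, (1 - ind I p t)) ≤ φ t := by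
  induction j with
  | zero =>
    intro d
    have h1 : Rep (PP 0) (fun _ => 1) 1 (1 : ℕ) :=
      .base 1 _ _ PM.one fun p hp hd => absurd (Nat.dvd_one.1 hd) hp.ne_one
    refine ⟨_, _, _, _, _, h1, h1, ?_, by simp, ?_, fun t => ?_⟩
    · simpa using one_le_pow₀ (by norm_num)
    · have : (0 : ℝ) ≤ (1 / 2) ^ (d + 1) := by positivity
      linarith
    · have : PP 0 = {2} := by decide
      simp [this, ind, h2]
  | succ j ih =>
    intro d
    obtain ⟨φ, ψ, Φ, Ψ, R, hφ, hψ, hR, hΦ, hΨ, hpt⟩ := ih (d + 1)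
    have hP : ∀ p ∈ PP (j + 1) \ PP j, p.Prime := fun p hp => (mem_PP.1 (mem_sdiff.1 hp).1).2
    have hL : ∑ p ∈ PP (j + 1) \ PP j, g p ≤ 11 * κ := by
      calc ∑ p ∈ PP (j + 1) \ PP j, g p ≤ ∑ p ∈ PP (j + 1) \ PP j, κ * ((1 : ℝ) / p) :=
            sum_le_sum fun p hp => by rw [mul_one_div]; exact (hg p (hP p hp)).2.2
        _ ≤ κ * 11 := by
            rw [← mul_sum]; exact mul_le_mul_of_nonneg_left (block_sum j) (by positivity)
        _ = _ := by ring
    obtain ⟨y, e, Y, E, Ry, Re, hy, he, hRR, hY, hE, hpt'⟩ := block (I := I) (g := g) hP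
      (fun p hp => hPM p (hP p hp)) (fun p hp => ⟨(hg p (hP p hp)).1, (hg p (hP p hp)).2.1⟩)
      (z := 2 ^ 2 ^ (j + 1))
      (le_self_pow₀ (by norm_num) (by positivity))
      (fun p hp => (mem_PP.1 (mem_sdiff.1 hp).1).1)
      (by
        refine (card_le_card (t := Ioc 0 (2 ^ 2 ^ (j + 1))) fun p hp => ?_).trans (by simp)
        exact mem_Ioc.2 ⟨(hP p hp).pos, (mem_PP.1 (mem_sdiff.1 hp).1).1⟩) hL (33 * κ + d + 1)
    have hU : PP (j + 1) \ PP j ∪ PP j = PP (j + 1) := sdiff_union_of_subset (PP_sub j)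
    have h1 := hy.mul hφ sdiff_disjoint
    have h3 := (hy.mul hψ sdiff_disjoint).add (he.mul hφ sdiff_disjoint).neg
    rw [hU] at h1 h3
    have hR0 := hφ.nonneg
    have hRy := hy.nonneg
    have hRe := he.nonneg
    have hΦ0 : 0 ≤ Φ := (Real.exp_pos _).le.trans hΦ
    have hY0 : 0 < Y := (Real.exp_pos _).trans_le hY
    refine ⟨_, _, _, _, (Ry + Re) * R, h1.mono (by nlinarith), h3.mono (by linarith), ?_, ?_, ?_,
      fun t => ?_⟩
    · refine (mul_le_mul hRR hR hR0 (by positivity)).trans ?_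
      push_cast
      rw [← pow_mul, ← pow_add]
      refine pow_le_pow_right₀ (by norm_num) (le_of_eq ?_)
      ring
    · refine le_trans (le_of_eq ?_) (mul_le_mul hY hΦ (Real.exp_pos _).le hY0.le)
      rw [← Real.exp_add]; push_cast; ring_nf
    · have h4 : E ≤ (1 / 2) ^ (d + 2) * Y := by
        have h5 : Real.exp (4 * (11 * κ)) ≤ 16 ^ (33 * κ) * Real.exp (-(2 * (11 * κ))) := by
          rw [Real.exp_neg, le_mul_inv_iff₀ (Real.exp_pos _), ← Real.exp_add]
          have e1 : 4 * (11 * (κ : ℝ)) + 2 * (11 * κ) = ((33 * κ : ℕ) : ℝ) * 2 := by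
            push_cast; ring
          rw [e1, Real.exp_nat_mul]
          refine pow_le_pow_left₀ (Real.exp_pos _).le ?_ _
          have := Real.exp_one_lt_d9
          have e2 : Real.exp 2 = Real.exp 1 * Real.exp 1 := by rw [← Real.exp_add]; norm_num
          nlinarith [Real.exp_pos 1]
        have h6 : (4 : ℝ) ^ (2 * (33 * κ + d + 1) + 1) * E ≤ 16 ^ (33 * κ) * Y :=
          (hE.trans h5).trans (mul_le_mul_of_nonneg_left hY (by positivity))
        have e3 : (4 : ℝ) ^ (2 * (33 * κ + d + 1) + 1) = 16 ^ (33 * κ) * 2 ^ (4 * d + 6) := by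
          rw [show (16 : ℝ) = 2 ^ 4 by norm_num, show (4 : ℝ) = 2 ^ 2 by norm_num, ← pow_mul,
            ← pow_mul, ← pow_add]
          congr 1; ring
        rw [e3, mul_assoc, mul_le_mul_iff_right₀ (by positivity)] at h6
        rw [one_div, inv_pow, ← div_eq_inv_mul, le_div_iff₀ (by positivity)]
        rcases le_total 0 E with hE0 | hE0
        · have : (2 : ℝ) ^ (d + 2) ≤ 2 ^ (4 * d + 6) := pow_le_pow_right₀ (by norm_num) (by omega)
          nlinarith
        · have : (0 : ℝ) < 2 ^ (d + 2) := by positivity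
          nlinarith
      have h7 := mul_le_mul_of_nonneg_left hΨ hY0.le
      have h8 := mul_le_mul_of_nonneg_right h4 hΦ0
      have e4 : ((1 : ℝ) / 2) ^ (d + 1) = 2 * (1 / 2) ^ (d + 1 + 1) := by ring
      rw [e4]
      nlinarith
    · rw [← hU, prod_union sdiff_disjoint]
      obtain ⟨a1, a2⟩ := hpt t
      obtain ⟨b1, b2, b3⟩ := hpt' t
      have hn : ∀ S : Finset ℕ, 0 ≤ ∏ p ∈ S, (1 - ind I p t) := fun S =>
        prod_nonneg fun p _ => by simp only [ind]; split_ifs <;> simp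
      have c1 := hn (PP j)
      have c2 := hn (PP (j + 1) \ PP j)
      have c3 : 0 ≤ y t := c2.trans b3
      constructor
      · nlinarith [mul_le_mul_of_nonneg_left a1 c3, mul_le_mul_of_nonneg_left a2 b1,
          mul_le_mul_of_nonneg_right b2 c1]
      · exact mul_le_mul b3 a2 c1 c3

/-- The lower bound sieve. -/
theorem sieve_lower {κ : ℕ} (hPM : ∀ p, p.Prime → PM p (ind I p) (g p))
    (hg : ∀ p, p.Prime → 0 ≤ g p ∧ g p ≤ 1 / 2 ∧ g p ≤ κ / p) (h2 : ∀ t, ¬ I 2 t) (J x : ℕ) :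
    x / 2 * Real.exp (-(22 * κ * J)) - 2 * 2 ^ (2 ^ J * (396 * κ + 36)) ≤
      ((range x).filter fun t => ∀ p ∈ PP J, ¬ I p t).card := by
  obtain ⟨φ, ψ, Φ, Ψ, R, -, hψ, hR, hΦ, hΨ, hpt⟩ := main_ind hPM hg h2 J 0
  have h1 := hψ.neg.approx x
  rw [sum_neg_distrib] at h1
  have h3 : ∑ t ∈ range x, ψ t ≤ ((range x).filter fun t => ∀ p ∈ PP J, ¬ I p t).card := by
    rw [← sum_boole]
    refine sum_le_sum fun t _ => (hpt t).1.trans ?_
    split_ifs with h
    · exact le_of_eq (prod_eq_one fun p hp => by simp [ind, h p hp])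
    · push Not at h
      obtain ⟨p, hp, hp'⟩ := h
      exact le_of_eq (prod_eq_zero hp (by simp [ind, hp']))
  have hx : (0 : ℝ) ≤ x := by positivity
  simp only [mul_zero, add_zero, zero_add, pow_one] at hR hΨ
  nlinarith [mul_le_mul_of_nonneg_left hΦ hx, mul_le_mul_of_nonneg_left hΨ hx]

end block

end Pool.Agent.P.MP_6f5b02_nt
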