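import Pool.Agent.P.MP_6f5b02_nt.Hint1
import Pool.Agent.P.MP_6f5b02_nt.Hint2
import Pool.Agent.P.MP_6f5b02_nt.Hint3

/-! A sign pattern that every dilation invariant family of shifts must show. -/

namespace Pool.Agent.P.MP_6f5b02_nt

open scoped ArithmeticFunction.Omega

/-- The sign attached to the shift `c` at scale `y`; `true` stands for `-1`. -/
def sg (U : ℚ → Bool) (y : ℚ) (c : ℕ) : Bool := xor (U (y * c)) (decide (Odd (Ω c)))

/-- The pattern at the shifts `j + 1, j + 2, j + 4, j + 6`. -/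
def Pat (U : ℚ → Bool) (j : ℕ) (y : ℚ) : Prop :=
  sg U y (j + 2) = true ∧ sg U y (j + 4) = true ∧ sg U y (j + 1) = sg U y (j + 6)

def par (c : ℕ) : ℕ := 145905039788 / 2 ^ c % 2

lemma par_spec {c : ℕ} (h0 : 0 < c) (h : c ≤ 40) : decide (Odd (Ω c)) = Nat.beq (par c) 1 := by
  interval_cases c <;>
    simp only [ArithmeticFunction.cardFactors_apply, Nat.primeFactorsList_ofNat,
      Nat.primeFactorsList_one] <;> decide

def ax (i : ℕ) : ℕ :=
  (((0 * 4294967296 + (2 * (i / 2 + 6) + (par (i / 2 + 6) + (1 + i % 2)) % 2)) * 4294967296 +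
    (2 * (i / 2 + 1) + (par (i / 2 + 1) + (1 + i % 2)) % 2)) * 4294967296 +
    (2 * (i / 2 + 4) + (par (i / 2 + 4) + 0) % 2)) * 4294967296 +
    (2 * (i / 2 + 2) + (par (i / 2 + 2) + 0) % 2)

lemma db_ax : ∀ i < 70, db.get i = ax i := by decide +kernel

lemma db_last : db.get 2816 = 0 := by decide +kernel

lemma lit_iff {U : ℚ → Bool} {y : ℚ} {c : ℕ} (h0 : 0 < c) (h : c ≤ 40) (e : ℕ) :
    Lit U y (2 * c + (par c + e) % 2) ↔ sg U y c = Nat.beq (e % 2) 1 := by
  rw [Lit, sg, par_spec h0 h, show (2 * c + (par c + e) % 2) / 2 = c by omega,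
    show (2 * c + (par c + e) % 2) % 2 = (par c % 2 + e % 2) % 2 by omega,
    show par c % 2 = par c from Nat.mod_mod _ _, and_iff_right (by omega)]
  have : par c = 0 ∨ par c = 1 := Nat.mod_two_eq_zero_or_one _
  rcases this with h1 | h1 <;> rcases Nat.mod_two_eq_zero_or_one e with h2 | h2 <;>
    rw [h1, h2] <;> cases U (y * c) <;> decide

theorem exists_pat (U : ℚ → Bool) : ∃ j y, j < 35 ∧ 0 < y ∧ Pat U j y := by
  by_contra hc
  push Not at hc
  have h : ∀ i < 70, Holds U (db.get i) := by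
    intro i hi y hy
    have h1 := hc (i / 2) y (by omega) hy
    rw [db_ax i hi, ax, sat_push (by omega), sat_push (by omega), sat_push (by omega),
      sat_push (by omega), lit_iff (by omega) (by omega), lit_iff (by omega) (by omega),
      lit_iff (by omega) (by omega), lit_iff (by omega) (by omega),
      show Nat.beq (0 % 2) 1 = false from rfl]
    rw [Pat] at h1
    revert h1
    cases sg U y (i / 2 + 2) <;> cases sg U y (i / 2 + 4) <;> cases sg U y (i / 2 + 1) <;>
      cases sg U y (i / 2 + 6) <;> cases Nat.beq ((1 + i % 2) % 2) 1 <;> simp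
  have h2 := part3 (part2 (part1 h)) 2816 (by norm_num) 1 one_pos
  rw [db_last] at h2
  exact not_sat_zero h2

/-- Finitely many scales suffice. -/
theorem exists_finset : ∃ I : Finset (ℕ × ℚ), (∀ p ∈ I, p.1 < 35 ∧ 0 < p.2) ∧
    ∀ U : ℚ → Bool, ∃ p ∈ I, Pat U p.1 p.2 := by
  classical
  obtain ⟨t, ht⟩ := (isCompact_univ (X := ℚ → Bool)).elim_finite_subcover
    (fun p : ℕ × ℚ => {U | (p.1 < 35 ∧ 0 < p.2) ∧ Pat U p.1 p.2}) (fun p => by
      have hs : ∀ c, Continuous fun U : ℚ → Bool => sg U p.2 c := fun c =>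
        (continuous_of_discreteTopology (f := fun b => xor b (decide (Odd (Ω c))))).comp
          (continuous_apply _)
      exact (isOpen_discrete {z : Bool × Bool × Bool × Bool | (p.1 < 35 ∧ 0 < p.2) ∧
        z.1 = true ∧ z.2.1 = true ∧ z.2.2.1 = z.2.2.2}).preimage
        ((hs _).prodMk ((hs _).prodMk ((hs _).prodMk (hs _)))))
    (fun U _ => by
      obtain ⟨j, y, h1, h2, h3⟩ := exists_pat U
      exact Set.mem_iUnion.2 ⟨(j, y), ⟨h1, h2⟩, h3⟩)
  refine ⟨t.filter fun p => p.1 < 35 ∧ 0 < p.2, fun p hp => (Finset.mem_filter.1 hp).2,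
    fun U => ?_⟩
  obtain ⟨p, hp, h1, h2⟩ := Set.mem_iUnion₂.1 (ht (Set.mem_univ U))
  exact ⟨p, Finset.mem_filter.2 ⟨hp, h1⟩, h2⟩

end Pool.Agent.P.MP_6f5b02_nt
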