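import Pool.Agent.P.MP_6f5b02_nt.Poly
import Pool.Agent.P.MP_6f5b02_nt.Unsat

/-! Almost primes `n` with `n` and `n (n + 1) / 2 - 2` both of odd length. -/

namespace Pool.Agent.P.MP_6f5b02_nt

open Finset Polynomial Filter
open scoped ArithmeticFunction.Omega

theorem almost_prime' (F : ℕ[X]) (h0 : F.eval 0 ≠ 0) {E : ℕ} (hE : 0 < E) :
    ∃ W r K : ℕ, 0 < W ∧ E ∣ W ∧ ∀ᶠ x : ℕ in atTop, x / Real.log x ^ K ≤
      ((range x).filter fun t => F.eval (W * t) ≠ 0 ∧ Ω (F.eval (W * t)) ≤ r).card := by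
  set c := F.eval 0 with hc
  obtain ⟨W, r, K, hW, h⟩ := almost_prime (1 + C E * X * (divX F).comp (C (c * E) * X)) (by simp)
  refine ⟨c * E * W, Ω c + r, K, by positivity, ⟨c * W, by ring⟩, ?_⟩
  filter_upwards [h] with x hx
  refine hx.trans (Nat.cast_le.2 (card_le_card fun t ht => ?_))
  obtain ⟨h1, h2, h3⟩ := mem_filter.1 ht
  have e : F.eval (c * E * W * t) =
      c * (1 + C E * X * (divX F).comp (C (c * E) * X)).eval (W * t) := by
    conv_lhs => rw [← divX_mul_X_add F, coeff_zero_eq_eval_zero, ← hc]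
    simp only [eval_add, eval_mul, eval_X, eval_C, eval_one, eval_comp, mul_assoc]
    ring
  refine mem_filter.2 ⟨h1, e ▸ mul_ne_zero h0 h2, ?_⟩
  rw [e, ArithmeticFunction.cardFactors_mul h0 h2]
  omega

/-- Both `n` and `n (n + 1) / 2 - 2` have an odd number, at most `r`, of prime factors. -/
def Good (r n : ℕ) : Prop :=
  Odd (Ω n) ∧ Ω n ≤ r ∧ Odd (Ω (n * (n + 1) / 2 - 2)) ∧ Ω (n * (n + 1) / 2 - 2) ≤ r

def cand (i : Fin 3) (Z : ℕ) : ℕ := ![Z + 2, Z + 4, (Z + 6) * (Z + 1) / 2] i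

def PZ (Z : ℕ) : ℕ :=
  (Z + 1) * (Z + 2) * (Z + 4) * (Z + 6) * (Z ^ 2 + 5 * Z + 2) * (Z ^ 2 + 9 * Z + 16)

lemma good_cand {r Z : ℕ} (h1 : Odd (Ω (Z + 2))) (h2 : Odd (Ω (Z + 4)))
    (h3 : Odd (Ω (Z + 1)) ↔ Odd (Ω (Z + 6))) (h4 : Ω (PZ Z) ≤ r) : ∃ i, Good r (cand i Z) := by
  obtain ⟨s, hs⟩ := Nat.even_mul_succ_self Z
  have hm : ∀ {a b : ℕ}, a ≠ 0 → b ≠ 0 → Ω (a * b) = Ω a + Ω b :=
    ArithmeticFunction.cardFactors_mul
  have h2' : Ω 2 = 1 := ArithmeticFunction.cardFactors_apply_prime Nat.prime_two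
  have e1 : (Z + 2) * (Z + 2 + 1) = 2 * (s + 2 * Z + 1) + 4 := by nlinarith
  have e2 : (Z + 4) * (Z + 4 + 1) = 2 * (s + 4 * Z + 8) + 4 := by nlinarith
  have e3 : (Z + 6) * (Z + 1) = 2 * (s + 3 * Z + 3) := by nlinarith
  have e4 : (s + 3 * Z + 3) * (s + 3 * Z + 3 + 1) = (s + 2 * Z + 1) * (s + 4 * Z + 8) + 4 := by
    nlinarith
  have e5 : Z ^ 2 + 5 * Z + 2 = 2 * (s + 2 * Z + 1) := by nlinarith
  have e6 : Z ^ 2 + 9 * Z + 16 = 2 * (s + 4 * Z + 8) := by nlinarith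
  obtain ⟨u, hu⟩ := Nat.even_mul_succ_self (s + 3 * Z + 3)
  have e7 : (s + 2 * Z + 1) * (s + 4 * Z + 8) = 2 * (u - 2) := by omega
  have hu0 : u - 2 ≠ 0 := by
    have : (s + 2 * Z + 1) * (s + 4 * Z + 8) ≠ 0 := by positivity
    omega
  have f3 := congrArg Ω e3
  have f7 := congrArg Ω e7
  rw [hm (by omega) (by omega), hm (by omega) (by omega), h2'] at f3 f7
  rw [PZ, e5, e6, hm (by positivity) (by omega), hm (by positivity) (by omega),
    hm (by positivity) (by omega), hm (by positivity) (by omega), hm (by omega) (by omega),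
    hm (by omega) (by omega), hm (by omega) (by omega)] at h4
  simp only [Fin.exists_fin_succ, Good, cand, Matrix.cons_val_zero, Matrix.cons_val_succ, e1, e2,
    e3, Nat.odd_iff, IsEmpty.exists_iff, or_false,
    show 2 * (s + 3 * Z + 3) / 2 = s + 3 * Z + 3 by omega, hu,
    show (u + u) / 2 = u by omega,
    show (2 * (s + 2 * Z + 1) + 4) / 2 - 2 = s + 2 * Z + 1 by omega,
    show (2 * (s + 4 * Z + 8) + 4) / 2 - 2 = s + 4 * Z + 8 by omega] at h1 h2 h3 ⊢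
  omega

lemma cand_mono (i : Fin 3) : StrictMono (cand i) := by
  refine strictMono_nat_of_lt_succ fun Z => ?_
  have : (Z + 1 + 6) * (Z + 1 + 1) = (Z + 6) * (Z + 1) + 2 * Z + 8 := by ring
  fin_cases i <;> simp [cand]
  omega

lemma cand_le (i : Fin 3) (Z : ℕ) : cand i Z ≤ (Z + 6) ^ 2 := by
  have : (Z + 6) * (Z + 1) / 2 ≤ (Z + 6) * (Z + 1) := Nat.div_le_self _ _
  fin_cases i <;> simp [cand] <;> nlinarith

lemma sg_eq {Y a τ c : ℕ} {y : ℚ} (hy : 0 < y) (ha : (a : ℚ) = Y / y) (hc : 0 < c) (hd : c ∣ τ) :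
    sg (fun z => decide (Odd (Ω (⌊(Y * τ : ℚ) / z⌋₊ + 1)))) y c = decide (Odd (Ω (a * τ + c))) := by
  obtain ⟨s, rfl⟩ := hd
  have e : ((Y : ℚ) * (c * s : ℕ)) / (y * c) = (a * s : ℕ) := by
    push_cast
    rw [ha]
    field_simp
  rw [sg, e, Nat.floor_natCast, show a * (c * s) + c = (a * s + 1) * c by ring,
    ArithmeticFunction.cardFactors_mul (by omega) hc.ne']
  by_cases h1 : Odd (Ω (a * s + 1)) <;> by_cases h2 : Odd (Ω c) <;>
    simp [Nat.odd_add, h1, h2, ← Nat.not_odd_iff_even]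

lemma exists_lin : ∃ (I : Finset (ℕ × ℕ)), (∀ p ∈ I, 0 < p.2) ∧
    ∀ τ, Nat.factorial 40 ∣ τ → ∃ p ∈ I, Odd (Ω (p.2 * τ + p.1 + 2)) ∧
      Odd (Ω (p.2 * τ + p.1 + 4)) ∧ (Odd (Ω (p.2 * τ + p.1 + 1)) ↔ Odd (Ω (p.2 * τ + p.1 + 6))) := by
  obtain ⟨I, hI, h⟩ := exists_finset
  set Y := ∏ p ∈ I, p.2.num.toNat with hY
  have hY0 : 0 < Y := prod_pos fun p hp => by
    have := Rat.num_pos.2 (hI p hp).2
    omega
  have ha : ∀ p ∈ I, ((⌊(Y : ℚ) / p.2⌋₊ : ℕ) : ℚ) = Y / p.2 := by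
    intro p hp
    obtain ⟨k, hk⟩ : p.2.num.toNat ∣ Y := dvd_prod_of_mem _ hp
    have h1 := Rat.num_pos.2 (hI p hp).2
    have h2 : ((p.2.num.toNat : ℕ) : ℚ) = p.2 * p.2.den := by
      rw [Rat.mul_den_eq_num, ← Int.cast_natCast, Int.toNat_of_nonneg h1.le]
    have h3 : (Y : ℚ) / p.2 = (p.2.den * k : ℕ) := by
      have := (hI p hp).2.ne'
      rw [hk]
      push_cast
      rw [h2]
      field_simp
    rw [h3, Nat.floor_natCast]
  refine ⟨I.image fun p => (p.1, ⌊(Y : ℚ) / p.2⌋₊), fun q hq => ?_, fun τ hτ => ?_⟩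
  · obtain ⟨p, hp, rfl⟩ := mem_image.1 hq
    have := (hI p hp).2
    have h1 : (0 : ℚ) < Y / p.2 := by positivity
    rw [← ha p hp] at h1
    exact_mod_cast h1
  · obtain ⟨p, hp, h1, h2, h3⟩ := h fun z => decide (Odd (Ω (⌊(Y * τ : ℚ) / z⌋₊ + 1)))
    obtain ⟨h4, h5⟩ := hI p hp
    have hd : ∀ c, 0 < c → c ≤ 40 → c ∣ τ := fun c h h' => (Nat.dvd_factorial h h').trans hτ
    rw [sg_eq h5 (ha p hp) (by omega) (hd _ (by omega) (by omega))] at h1 h2 h3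
    rw [sg_eq h5 (ha p hp) (by omega) (hd _ (by omega) (by omega))] at h3
    exact ⟨_, mem_image_of_mem _ hp, of_decide_eq_true h1, of_decide_eq_true h2,
      decide_eq_decide.1 h3⟩

lemma Omega_le_of_dvd {a b : ℕ} (hb : b ≠ 0) (h : a ∣ b) : Ω a ≤ Ω b := by
  obtain ⟨c, rfl⟩ := h
  rw [ArithmeticFunction.cardFactors_mul (left_ne_zero_of_mul hb) (right_ne_zero_of_mul hb)]
  omega

open Classical in
theorem main : ∃ r K : ℕ, ∀ᶠ X : ℕ in atTop,
    √X / Real.log X ^ K ≤ ((range (X + 1)).filter (Good r)).card := by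
  obtain ⟨I, hI, h⟩ := exists_lin
  let P : ℕ[X] := (X + 1) * (X + 2) * (X + 4) * (X + 6) * (X ^ 2 + 5 * X + 2) * (X ^ 2 + 9 * X + 16)
  have hP : ∀ Z, P.eval Z = PZ Z := fun Z => by simp [P, PZ]
  have hF : ∀ τ, (∏ p ∈ I, P.comp (C p.2 * X + C p.1)).eval τ = ∏ p ∈ I, PZ (p.2 * τ + p.1) :=
    fun τ => by simp [eval_prod, hP]
  obtain ⟨W, r, K, hW, hd, hx⟩ := almost_prime' (∏ p ∈ I, P.comp (C p.2 * X + C p.1))
    (by rw [hF]; exact prod_ne_zero_iff.2 fun p _ => by unfold PZ; positivity)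
    (Nat.factorial_pos 40)
  simp only [hF] at hx
  set D := (∑ p ∈ I, (p.2 * W + p.1)) + 6 with hD
  have hD0 : D ≠ 0 := by omega
  have ht : Tendsto (fun X : ℕ => Nat.sqrt X / D) atTop atTop :=
    (Nat.tendsto_div_const_atTop hD0).comp
      (tendsto_atTop_atTop.2 fun b => ⟨b * b, fun a ha => Nat.le_sqrt.2 ha⟩)
  refine ⟨r, K + 1, ?_⟩
  filter_upwards [ht.eventually hx, ht.eventually_ge_atTop 2, ev_log (6 * D * I.card + 1)]
    with N h1 h2 h3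
  set x := Nat.sqrt N / D with hxd
  have h4 : D * x ≤ Nat.sqrt N := Nat.mul_div_le _ _
  have h5 : Nat.sqrt N < D * (x + 1) := Nat.lt_mul_div_succ _ (by omega)
  have h6 : (D * x) ^ 2 ≤ N := (Nat.pow_le_pow_left h4 2).trans (Nat.sqrt_le' N)
  have hc : ((range x).filter fun t => ∏ p ∈ I, PZ (p.2 * (W * t) + p.1) ≠ 0 ∧
      Ω (∏ p ∈ I, PZ (p.2 * (W * t) + p.1)) ≤ r).card ≤
      ((I ×ˢ (univ : Finset (Fin 3))) ×ˢ (range (N + 1)).filter (Good r)).card := by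
    refine card_le_card_of_forall_subsingleton
      (fun t q => q.1.1 ∈ I ∧ cand q.1.2 (q.1.1.2 * (W * t) + q.1.1.1) = q.2) (fun t ht => ?_)
      fun q _ a ha b hb => ?_
    · obtain ⟨ht1, ht2, ht3⟩ := mem_filter.1 ht
      obtain ⟨p, hp, g1, g2, g3⟩ := h (W * t) (hd.mul_right t)
      obtain ⟨i, hi⟩ := good_cand g1 g2 g3
        ((Omega_le_of_dvd ht2 (dvd_prod_of_mem _ hp)).trans ht3)
      refine ⟨((p, i), _), mem_product.2 ⟨mem_product.2 ⟨hp, mem_univ _⟩,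
        mem_filter.2 ⟨mem_range.2 (Nat.lt_succ_of_le ?_), hi⟩⟩, hp, rfl⟩
      refine ((cand_le _ _).trans (Nat.pow_le_pow_left ?_ 2)).trans h6
      have g4 := single_le_sum (f := fun p : ℕ × ℕ => p.2 * W + p.1) (fun _ _ => Nat.zero_le _) hp
      have g5 := mem_range.1 ht1
      have g6 : (p.2 * W + p.1 + 6) * x ≤ D * x := Nat.mul_le_mul_right _ (by omega)
      have g7 : p.2 * W * t ≤ p.2 * W * x := Nat.mul_le_mul_left _ g5.le
      nlinarith
    · have g1 := (cand_mono _).injective (ha.2.2.trans hb.2.2.symm)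
      exact Nat.eq_of_mul_eq_mul_left hW
        (Nat.eq_of_mul_eq_mul_left (hI _ ha.2.1) (Nat.add_right_cancel g1))
  rw [card_product, card_product, card_univ, Fintype.card_fin] at hc
  have hc' := h1.trans (Nat.cast_le.2 hc)
  push_cast at hc'
  set G : ℝ := (((range (N + 1)).filter (Good r)).card : ℝ)
  have hx2 : (2 : ℝ) ≤ x := by exact_mod_cast h2
  have hl : 0 < Real.log x := Real.log_pos (by linarith)
  have hxN : (x : ℝ) ≤ N := by
    exact_mod_cast (Nat.div_le_self _ _).trans (Nat.sqrt_le_self N)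
  have hl2 : Real.log x ^ K ≤ Real.log N ^ K :=
    pow_le_pow_left₀ hl.le (Real.log_le_log (by linarith) hxN) K
  have hs : √(N : ℝ) ≤ 2 * D * x := by
    have g1 : ((Nat.sqrt N + 1 : ℕ) : ℝ) ≤ (2 * D * x : ℕ) := by
      exact_mod_cast (by nlinarith : Nat.sqrt N + 1 ≤ 2 * D * x)
    push_cast at g1
    exact Real.real_sqrt_le_nat_sqrt_succ.trans g1
  have hG : 0 ≤ G := by positivity
  have hL : 0 < Real.log N := lt_of_lt_of_le (by positivity) h3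
  rw [div_le_iff₀ (by positivity)] at hc' ⊢
  have hDr : (0 : ℝ) ≤ D := by positivity
  calc √(N : ℝ) ≤ 2 * D * (I.card * 3 * G * Real.log x ^ K) := hs.trans (by gcongr)
    _ = G * (Real.log x ^ K * (6 * D * I.card)) := by ring
    _ ≤ G * (Real.log N ^ K * Real.log N) := by gcongr; linarith
    _ = _ := by rw [pow_succ]

end Pool.Agent.P.MP_6f5b02_nt
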