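import Pool.Agent.P.MP_6f5b02_nt.Sieve

/-! Almost prime values of polynomials with constant term one. -/

namespace Pool.Agent.P.MP_6f5b02_nt

open Finset Polynomial Filter Pool.Agent.P.MP_74dd9d_nt
open scoped ArithmeticFunction.Omega

lemma dvd_eval_iff (G : ℕ[X]) (p t : ℕ) :
    p ∣ G.eval t ↔ (G.map (Nat.castRingHom (ZMod p))).eval (t : ZMod p) = 0 := by
  rw [eval_natCast_map, ← ZMod.natCast_eq_zero_iff]
  simp

lemma card_roots_le (G : ℕ[X]) (h0 : G.eval 0 = 1) {p : ℕ} (hp : p.Prime) :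
    ((range p).filter fun t => p ∣ G.eval t).card ≤ G.natDegree := by
  have := Fact.mk hp
  have hne : G.map (Nat.castRingHom (ZMod p)) ≠ 0 := by
    intro h
    have h1 := (dvd_eval_iff G p 0).2 (by rw [h]; simp)
    rw [h0] at h1
    exact hp.ne_one (Nat.dvd_one.1 h1)
  refine le_trans (card_le_card_of_injOn (t := (G.map (Nat.castRingHom (ZMod p))).roots.toFinset)
    (fun t => (t : ZMod p)) (fun t ht => ?_) fun a ha b hb hab => ?_) ?_
  · simp only [coe_filter, mem_range, Set.mem_ofPred_eq] at ht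
    simp only [Multiset.mem_toFinset, mem_coe, mem_roots hne, IsRoot.def]
    exact (dvd_eval_iff G p t).1 ht.2
  · simp only [coe_filter, mem_range, Set.mem_ofPred_eq] at ha hb
    exact Nat.ModEq.eq_of_lt_of_lt ((ZMod.natCast_eq_natCast_iff _ _ _).1 hab) ha.1 hb.1
  · exact (Multiset.toFinset_card_le _).trans ((card_roots' _).trans natDegree_map_le)

lemma eval_le (G : ℕ[X]) {t x : ℕ} (ht : t ≤ x) (hx : 1 ≤ x) :
    G.eval t ≤ G.eval 1 * x ^ G.natDegree := by
  rw [eval_eq_sum_range, eval_eq_sum_range, sum_mul]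
  refine sum_le_sum fun i hi => ?_
  rw [one_pow, mul_one]
  exact Nat.mul_le_mul_left _ ((Nat.pow_le_pow_left ht i).trans
    (Nat.pow_le_pow_right hx (Nat.lt_succ_iff.1 (mem_range.1 hi))))

lemma pow_Omega_le {m z : ℕ} (hm : m ≠ 0) (h : ∀ p, p.Prime → p ∣ m → z ≤ p) : z ^ Ω m ≤ m := by
  rw [ArithmeticFunction.cardFactors_apply]
  refine (List.pow_card_le_prod _ _ fun p hp => ?_).trans (Nat.prod_primeFactorsList hm).le
  exact h p (Nat.prime_of_mem_primeFactorsList hp) (Nat.dvd_of_mem_primeFactorsList hp)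

lemma ev_log_pow (c : ℝ) (n : ℕ) : ∀ᶠ x : ℕ in atTop, c * Real.log x ^ n ≤ √x := by
  have h := (isLittleO_log_rpow_rpow_atTop (n : ℝ) (show (0 : ℝ) < 1 / 2 by norm_num)).bound
    (show 0 < 1 / (|c| + 1) by positivity)
  filter_upwards [tendsto_natCast_atTop_atTop.eventually h, eventually_ge_atTop 1] with x hx h1
  have h2 : 0 ≤ Real.log x := Real.log_natCast_nonneg x
  rw [Real.rpow_natCast, ← Real.sqrt_eq_rpow, Real.norm_of_nonneg (by positivity),
    Real.norm_of_nonneg (by positivity), one_div, inv_mul_eq_div,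
    le_div_iff₀ (by positivity)] at hx
  have : 0 ≤ Real.log x ^ n := by positivity
  nlinarith [le_abs_self c]

lemma ev_log (c : ℝ) : ∀ᶠ x : ℕ in atTop, c ≤ Real.log x :=
  (Real.tendsto_log_atTop.comp tendsto_natCast_atTop_atTop).eventually_ge_atTop c

lemma almost_prime_aux (G : ℕ[X]) (h0 : G.eval 0 = 1) {κ : ℕ} (hκ : G.natDegree ≤ κ)
    (hs : ∀ p, p.Prime → p ≤ 2 * κ + 2 → ∀ t, ¬ p ∣ G.eval t) :
    ∃ r K : ℕ, ∀ᶠ x : ℕ in atTop,
      x / Real.log x ^ K ≤ ((range x).filter fun t => G.eval t ≠ 0 ∧ Ω (G.eval t) ≤ r).card := by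
  set A := 396 * κ + 36 with hA
  have hA0 : 0 < A := by omega
  refine ⟨4 * A * (κ + 1), 32 * κ + 1, ?_⟩
  let g : ℕ → ℝ := fun p => ((range p).filter fun t => p ∣ G.eval t).card / p
  have hPM : ∀ p, p.Prime → PM p (ind (fun p t => p ∣ G.eval t) p) (g p) := by
    intro p hp
    have hp0 : (p : ℝ) ≠ 0 := by exact_mod_cast hp.ne_zero
    refine ⟨hp.pos, fun a => ?_, fun a => ?_, ?_⟩
    · simp only [ind, dvd_eval_iff]; simp
    · simp only [ind]; split_ifs <;> simp
    · simp only [ind, g, sum_boole]; field_simp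
  have hg : ∀ p, p.Prime → 0 ≤ g p ∧ g p ≤ 1 / 2 ∧ g p ≤ κ / p := by
    intro p hp
    have hp0 : (0 : ℝ) < p := by exact_mod_cast hp.pos
    have h1 : (((range p).filter fun t => p ∣ G.eval t).card : ℝ) ≤ κ := by
      exact_mod_cast (card_roots_le G h0 hp).trans hκ
    refine ⟨by positivity, ?_, div_le_div_of_nonneg_right h1 hp0.le⟩
    rcases le_or_gt p (2 * κ + 2) with h | h
    · have : ((range p).filter fun t => p ∣ G.eval t) = ∅ :=
        filter_eq_empty_iff.2 fun t _ => hs p hp h t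
      simp [g, this]
    · rw [div_le_iff₀ hp0]
      have : (2 * κ + 2 : ℝ) < p := by exact_mod_cast h
      linarith
  have h2 : ∀ t, ¬ 2 ∣ G.eval t := hs 2 Nat.prime_two (by omega)
  filter_upwards [eventually_ge_atTop (2 ^ (2 * A)), eventually_ge_atTop (G.eval 1),
    ev_log_pow (8 * 2 ^ (32 * κ)) (32 * κ), ev_log (4 * 2 ^ (32 * κ))] with x hx1 hx2 hx3 hx4
  have hx0 : x ≠ 0 := by have : 0 < 2 ^ (2 * A) := by positivity
                         omega
  set l := Nat.log 2 x with hl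
  have hl1 : 2 * A ≤ l := Nat.le_log_of_pow_le (by norm_num) hx1
  have hq : l / (2 * A) ≠ 0 := (Nat.div_pos hl1 (by omega)).ne'
  set J := Nat.log 2 (l / (2 * A)) with hJ
  have hJ1 : 2 ^ J * (2 * A) ≤ l :=
    (Nat.le_div_iff_mul_le (by omega)).1 (Nat.pow_log_le_self 2 hq)
  have hJ2 : l < 2 ^ (J + 1) * (2 * A) :=
    (Nat.div_lt_iff_lt_mul (by omega)).1 (Nat.lt_pow_succ_log_self (by norm_num) _)
  have hxl : 2 ^ l ≤ x := Nat.pow_log_le_self 2 hx0
  have hxu : x < 2 ^ (l + 1) := Nat.lt_pow_succ_log_self (by norm_num) _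
  have hs1 := sieve_lower hPM hg h2 J x
  have hsub : ((range x).filter fun t => ∀ p ∈ PP J, ¬ p ∣ G.eval t) ⊆
      (range x).filter fun t => G.eval t ≠ 0 ∧ Ω (G.eval t) ≤ 4 * A * (κ + 1) := by
    intro t ht
    obtain ⟨ht1, ht2⟩ := mem_filter.1 ht
    have hne : G.eval t ≠ 0 := fun e => h2 t (by simp [e])
    refine mem_filter.2 ⟨ht1, hne, ?_⟩
    have h3 := pow_Omega_le (z := 2 ^ 2 ^ J) hne fun p hp hd => by
      by_contra hc
      exact ht2 p (mem_PP.2 ⟨by omega, hp⟩) hd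
    have h4 : G.eval t ≤ x ^ (κ + 1) := by
      refine (eval_le G (mem_range.1 ht1).le (by omega)).trans ?_
      rw [pow_succ']
      exact Nat.mul_le_mul hx2 (Nat.pow_le_pow_right (by omega) hκ)
    have h5 : x ≤ (2 ^ 2 ^ J) ^ (4 * A) := by
      rw [← pow_mul]
      refine hxu.le.trans (Nat.pow_le_pow_right (by norm_num) ?_)
      rw [pow_succ] at hJ2
      nlinarith
    have h6 := (h3.trans h4).trans (Nat.pow_le_pow_left h5 _)
    rw [← pow_mul (2 ^ 2 ^ J)] at h6
    exact (Nat.pow_le_pow_iff_right (Nat.one_lt_two_pow (pow_pos two_pos J).ne')).1 h6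
  refine le_trans ?_ (hs1.trans (by exact_mod_cast card_le_card hsub))
  have hxr : (0 : ℝ) < x := by positivity
  have hlog : 0 < Real.log x := lt_of_lt_of_le (by positivity) hx4
  have h7 : (2 : ℝ) ^ (2 ^ J * A) ≤ √x := by
    refine Real.le_sqrt_of_sq_le ?_
    rw [← pow_mul]
    exact_mod_cast (Nat.pow_le_pow_right (by norm_num) (by nlinarith)).trans hxl
  have h8 : (2 : ℝ) ^ J ≤ 2 * Real.log x := by
    have h9 : (l : ℝ) * Real.log 2 ≤ Real.log x := by
      rw [← Real.log_pow]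
      exact Real.log_le_log (by positivity) (by exact_mod_cast hxl)
    have h10 : ((2 ^ J : ℕ) : ℝ) ≤ l := by exact_mod_cast (by nlinarith : 2 ^ J ≤ l)
    have := Real.log_two_gt_d9
    push_cast at h10
    nlinarith [(by positivity : (0 : ℝ) ≤ l)]
  have h11 : ((2 * Real.log x) ^ (32 * κ))⁻¹ ≤ Real.exp (-(22 * κ * J)) := by
    rw [Real.exp_neg]
    refine inv_anti₀ (Real.exp_pos _) (le_trans ?_ (pow_le_pow_left₀ (by positivity) h8 _))
    have e1 : (22 * κ * J : ℝ) = ((κ * J : ℕ) : ℝ) * 22 := by push_cast; ring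
    rw [e1, Real.exp_nat_mul, ← pow_mul, show J * (32 * κ) = 32 * (κ * J) by ring,
      pow_mul (2 : ℝ) 32 (κ * J)]
    refine pow_le_pow_left₀ (Real.exp_pos _).le ?_ _
    have := Real.log_two_gt_d9
    rw [← Real.le_log_iff_exp_le (by positivity), Real.log_pow]
    push_cast
    linarith
  set D := Real.log x ^ (32 * κ) with hD
  have hD0 : 0 < D := by positivity
  set T : ℝ := 2 ^ (32 * κ) with hT
  have hT0 : 0 < T := by positivity
  rw [mul_pow] at h11
  have h12 : 2 * √x ≤ x / 4 * (T * D)⁻¹ := by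
    rw [← div_eq_mul_inv, le_div_iff₀ (by positivity)]
    have := Real.mul_self_sqrt hxr.le
    nlinarith [Real.sqrt_nonneg (x : ℝ)]
  have h13 : x / Real.log x ^ (32 * κ + 1) ≤ x / 4 * (T * D)⁻¹ := by
    rw [pow_succ, ← div_eq_mul_inv, div_div]
    refine div_le_div_of_nonneg_left hxr.le (by positivity) ?_
    nlinarith
  have h14 := mul_le_mul_of_nonneg_left h11 (show (0 : ℝ) ≤ x / 2 by positivity)
  linarith

/-- Almost prime values of a polynomial with constant term one along multiples of `W`. -/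
theorem almost_prime (F : ℕ[X]) (h0 : F.eval 0 = 1) :
    ∃ W r K : ℕ, 0 < W ∧ ∀ᶠ x : ℕ in atTop, x / Real.log x ^ K ≤
      ((range x).filter fun t => F.eval (W * t) ≠ 0 ∧ Ω (F.eval (W * t)) ≤ r).card := by
  set W := (2 * F.natDegree + 2).factorial with hW
  obtain ⟨r, K, h⟩ := almost_prime_aux (F.comp (C W * X)) (by simp [h0]) (κ := F.natDegree)
    (natDegree_comp_le.trans (by
      have : (C W * X : ℕ[X]).natDegree ≤ 1 := natDegree_C_mul_le _ _ |>.trans natDegree_X_le
      nlinarith))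
    (fun p hp hle t hd => by
      have h1 : (W : ZMod p) = 0 := (ZMod.natCast_eq_zero_iff _ _).2 (Nat.dvd_factorial hp.pos hle)
      simp only [eval_comp, eval_mul, eval_C, eval_X] at hd
      rw [dvd_eval_iff, Nat.cast_mul, h1, zero_mul] at hd
      have h2 := (dvd_eval_iff F p 0).2 (by simpa using hd)
      rw [h0] at h2
      exact hp.ne_one (Nat.dvd_one.1 h2))
  exact ⟨W, r, K, Nat.factorial_pos _, by simpa using h⟩

end Pool.Agent.P.MP_6f5b02_nt
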