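import Mathlib

/-! A checker for scale invariant unit propagation proofs. -/

namespace Pool.Agent.P.MP_6f5b02_nt

/-- The literal `l` says that `U` takes the value `l % 2` at the point `y * (l / 2)`. -/
def Lit (U : ℚ → Bool) (y : ℚ) (l : ℕ) : Prop :=
  l ≠ 0 ∧ U (y * ((l / 2 : ℕ) : ℚ)) = Nat.beq (l % 2) 1

def slot (T j : ℕ) : ℕ := Nat.mod (Nat.shiftRight T (Nat.mul 32 j)) 4294967296

/-- The clause packed in `D` is satisfied at scale `y`. -/
def Sat (U : ℚ → Bool) (y : ℚ) (D : ℕ) : Prop := ∃ j, Lit U y (slot D j)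

def Holds (U : ℚ → Bool) (D : ℕ) : Prop := ∀ y : ℚ, 0 < y → Sat U y D

lemma slot_eq (T j : ℕ) : slot T j = T / 4294967296 ^ j % 4294967296 := by
  show T >>> (32 * j) % 4294967296 = _
  rw [Nat.shiftRight_eq_div_pow, pow_mul]
  rfl

lemma sat_iff {U : ℚ → Bool} {y : ℚ} {D : ℕ} :
    Sat U y D ↔ Lit U y (D % 4294967296) ∨ Sat U y (D / 4294967296) := by
  simp only [Sat, slot_eq]
  constructor
  · rintro ⟨j, hj⟩
    rcases j with _ | j
    · left; simpa using hj
    · right; exact ⟨j, by rwa [Nat.div_div_eq_div_mul, ← pow_succ']⟩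
  · rintro (h | ⟨j, hj⟩)
    · exact ⟨0, by simpa using h⟩
    · exact ⟨j + 1, by rwa [Nat.div_div_eq_div_mul, ← pow_succ'] at hj⟩

lemma sat_push {U : ℚ → Bool} {y : ℚ} {T u : ℕ} (hu : u < 4294967296) :
    Sat U y (T * 4294967296 + u) ↔ Lit U y u ∨ Sat U y T := by
  rw [sat_iff, show (T * 4294967296 + u) % 4294967296 = u by omega,
    show (T * 4294967296 + u) / 4294967296 = T by omega]

lemma not_sat_zero {U : ℚ → Bool} {y : ℚ} : ¬ Sat U y 0 := by
  rintro ⟨j, h, -⟩
  simp [slot_eq] at h

noncomputable def force (x : ℕ) (f : ℕ → Bool) : Bool :=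
  Nat.rec (f 0) (fun n _ => f (Nat.succ n)) x

lemma force_eq (x : ℕ) (f : ℕ → Bool) : force x f = f x := by cases x <;> rfl

/-- Every literal of `D`, rescaled by `w / v`, occurs in `T`. -/
noncomputable def lits (T v w : ℕ) (k : ℕ → Bool) (n : ℕ) : ℕ → ℕ → Bool :=
  Nat.rec (motive := fun _ => ℕ → ℕ → Bool) (fun _ _ => false)
    (fun _ ih D H => cond (Nat.beq D 0) (k H)
      (force (Nat.mod D 4294967296) fun l => force (slot T (Nat.mod H 128)) fun s =>
        cond (Nat.beq (Nat.mul (Nat.div s 2) v) (Nat.mul (Nat.div l 2) w))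
          (cond (Nat.beq (Nat.mod s 2) (Nat.mod l 2))
            (force (Nat.div D 4294967296) fun D' => force (Nat.div H 128) fun H' => ih D' H')
            false) false)) n

lemma cond_and {a b : Bool} (h : cond a b false = true) : a = true ∧ b = true := by
  cases a <;> simp_all

lemma lits_sound {U : ℚ → Bool} {y : ℚ} {T v w : ℕ} (hv : v ≠ 0) (hw : w ≠ 0) {k : ℕ → Bool}
    (n : ℕ) : ∀ D H, lits T v w k n D H = true →
      (Sat U (y * w / v) D → Sat U y T) ∧ ∃ H', k H' = true := by
  induction n with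
  | zero => intro D H h; exact absurd h Bool.false_ne_true
  | succ n ih =>
    intro D H h
    change cond (Nat.beq D 0) (k H) (force _ _) = true at h
    cases hD : Nat.beq D 0 with
    | true =>
      rw [hD] at h
      rw [Nat.eq_of_beq_eq_true hD]
      exact ⟨fun h' => absurd h' not_sat_zero, H, h⟩
    | false =>
      rw [hD, cond_false, force_eq, force_eq] at h
      obtain ⟨h1, h⟩ := cond_and h
      obtain ⟨h2, h⟩ := cond_and h
      rw [force_eq, force_eq] at h
      obtain ⟨h3, h4⟩ := ih _ _ h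
      refine ⟨fun h' => ?_, h4⟩
      rcases sat_iff.1 h' with ⟨h5, h6⟩ | h5
      · have e1 : slot T (H % 128) / 2 * v = D % 4294967296 / 2 * w := Nat.eq_of_beq_eq_true h1
        have e2 : slot T (H % 128) % 2 = D % 4294967296 % 2 := Nat.eq_of_beq_eq_true h2
        refine ⟨H % 128, fun e => ?_, ?_⟩
        · rw [e] at e1 e2
          have : D % 4294967296 / 2 * w = 0 := by simpa using e1.symm
          rcases Nat.mul_eq_zero.1 this with h | h <;> omega
        · rw [e2, ← h6]
          congr 1
          have hv' : (v : ℚ) ≠ 0 := by exact_mod_cast hv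
          have e3 : ((slot T (H % 128) / 2 : ℕ) : ℚ) * v = ((D % 4294967296 / 2 : ℕ) : ℚ) * w := by
            exact_mod_cast e1
          field_simp
          linear_combination y * e3
      · exact h3 h5

noncomputable def rstep (get : ℕ → ℕ) (i : ℕ) (ih : ℕ → ℕ → Bool) (T H : ℕ) : Bool :=
  force (Nat.mod H 4096) fun d => force (Nat.mod (Nat.div H 4096) 4294967296) fun u =>
  force (Nat.div H 17592186044416) fun H1 => force (get d) fun D =>
  force (Nat.add (Nat.mul T 4294967296) u) fun T1 =>
  force (Nat.div (Nat.mod D 4294967296) 2) fun v =>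
  force (Nat.div (slot T1 (Nat.mod H1 128)) 2) fun w =>
  cond (Nat.ble i d) false (cond (Nat.beq (Nat.mul v w) 0) false
    (lits T1 v w (fun H2 => cond (Nat.beq u 0) true
      (force (Nat.add (Nat.mul T 4294967296)
        (Nat.sub (Nat.succ u) (Nat.mul 2 (Nat.mod u 2)))) fun T2 => ih T2 H2)) 40 D H1))

/-- Unit propagation from the falsified clause `T` along the hints `H`. -/
noncomputable def run (get : ℕ → ℕ) (i n : ℕ) : ℕ → ℕ → Bool :=
  Nat.rec (motive := fun _ => ℕ → ℕ → Bool) (fun _ _ => false) (fun _ ih => rstep get i ih) n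

lemma cond_not {a b : Bool} (h : cond a false b = true) : a = false ∧ b = true := by
  cases a <;> simp_all

lemma run_sound {U : ℚ → Bool} {y : ℚ} (hy : 0 < y) {get : ℕ → ℕ} {i : ℕ}
    (hg : ∀ j < i, Holds U (get j)) (n : ℕ) : ∀ T H, run get i n T H = true → Sat U y T := by
  induction n with
  | zero => intro D H h; exact absurd h Bool.false_ne_true
  | succ n ih =>
    intro T H h
    change rstep get i (run get i n) T H = true at h
    simp only [rstep, force_eq] at h
    obtain ⟨h1, h⟩ := cond_not h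
    obtain ⟨h2, h⟩ := cond_not h
    generalize hu : Nat.mod (Nat.div H 4096) 4294967296 = u at h h2
    have hu' : u < 4294967296 := hu ▸ Nat.mod_lt _ (by norm_num)
    generalize Nat.mod H 4096 = d at h h1 h2
    generalize Nat.div (Nat.mod (get d) 4294967296) 2 = v at h h2
    generalize Nat.div (slot _ _) 2 = w at h h2
    have h3 : v * w ≠ 0 := Nat.ne_of_beq_eq_false h2
    have hv : v ≠ 0 := left_ne_zero_of_mul h3
    have hw : w ≠ 0 := right_ne_zero_of_mul h3
    have hd : d < i := by
      by_contra hc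
      rw [Nat.ble_eq_true_of_le (not_lt.1 hc)] at h1
      exact Bool.noConfusion h1
    obtain ⟨h4, H2, h5⟩ := lits_sound (U := U) (y := y) hv hw _ _ _ h
    rcases (sat_push hu').1 (h4 (hg d hd _ (by positivity))) with ⟨h6, h7⟩ | h6
    · have h0 : Nat.beq u 0 = false := by
        cases u with
        | zero => exact absurd rfl h6
        | succ u => rfl
      rw [h0, cond_false] at h5
      have h8 : Sat U y (T * 4294967296 + (u + 1 - 2 * (u % 2))) := ih _ _ h5
      rcases (sat_push (by omega)).1 h8 with ⟨-, h9⟩ | h9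
      · rw [show (u + 1 - 2 * (u % 2)) / 2 = u / 2 by omega, h7] at h9
        rcases Nat.mod_two_eq_zero_or_one u with e | e
        · rw [show (u + 1 - 2 * (u % 2)) % 2 = 1 by omega, e] at h9
          exact Bool.noConfusion h9
        · rw [show (u + 1 - 2 * (u % 2)) % 2 = 0 by omega, e] at h9
          exact Bool.noConfusion h9
      · exact h9
    · exact h6

noncomputable def steps (get : ℕ → ℕ) (e : ℕ) (L : List ℕ) : ℕ → Bool :=
  List.rec (motive := fun _ => ℕ → Bool) (fun i => Nat.beq i e)
    (fun H _ ih i => cond (force (get i) fun T => run get i 128 T H)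
      (force (Nat.succ i) ih) false) L

lemma steps_sound {U : ℚ → Bool} {get : ℕ → ℕ} {e : ℕ} (L : List ℕ) :
    ∀ i, steps get e L i = true → (∀ j < i, Holds U (get j)) → ∀ j < e, Holds U (get j) := by
  induction L with
  | nil => intro i h hg; rwa [← Nat.eq_of_beq_eq_true h]
  | cons H L ih =>
    intro i h hg
    obtain ⟨h1, h2⟩ := cond_and h
    rw [force_eq] at h1 h2
    refine ih _ h2 fun j hj => ?_
    rcases (Nat.lt_succ_iff.1 hj).lt_or_eq with hj | rfl
    · exact hg j hj
    · exact fun y hy => run_sound hy hg _ _ _ h1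

/-- Search trees of packed clauses. -/
inductive Tr where
  | leaf (n : ℕ) : Tr
  | node (p : ℕ) (l r : Tr) : Tr

noncomputable def Tr.get (t : Tr) (i : ℕ) : ℕ :=
  Tr.rec (fun n => n) (fun p _ _ a b => cond (Nat.ble p i) b a) t

end Pool.Agent.P.MP_6f5b02_nt
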